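import Mathlib
import Pool.Agent.Hhelper76.FairDiv

/-!
# Round robin forward on one class of goods and backward on the other (MP_d51325_lc)
-/

set_option autoImplicit false

namespace Pool.Agent.TwC

open Finset Pool.Agent.Hhelper76.FairDiv

variable {M : Type*} [Fintype M] [DecidableEq M] {n : ℕ}

/-- Inside `S` the set `T` is closed upwards with respect to `w`. -/
def Up (w : M → ℝ) (S : Finset M) (T : M → Prop) : Prop :=
  ∀ g ∈ S, ∀ h ∈ S, T g → w g ≤ w h → T h

/-- The number of goods of agent `k` in `S ∩ T`. -/
def cnt (S : Finset M) (A : M → Fin n) (T : M → Prop) [DecidablePred T] (k : Fin n) : ℕ :=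
  (S.filter (fun g => A g = k ∧ T g)).card

theorem cnt_erase_ne {S : Finset M} {x : M} {A : M → Fin n} {T : M → Prop} [DecidablePred T]
    {k r : Fin n} (hk : k ≠ r) :
    cnt S (Function.update A x r) T k = cnt (S.erase x) A T k := by
  unfold cnt
  congr 1
  ext g
  simp only [mem_filter, mem_erase]
  by_cases hg : g = x
  · subst hg
    simp [Ne.symm hk]
  · simp [Function.update_of_ne hg, hg]

theorem cnt_erase_eq {S : Finset M} {x : M} (hx : x ∈ S) {A : M → Fin n} {T : M → Prop}
    [DecidablePred T] {r : Fin n} :
    cnt S (Function.update A x r) T r = cnt (S.erase x) A T r + if T x then 1 else 0 := by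
  unfold cnt
  by_cases hT : T x
  · rw [if_pos hT]
    have : S.filter (fun g => Function.update A x r g = r ∧ T g) =
        insert x ((S.erase x).filter (fun g => A g = r ∧ T g)) := by
      ext g
      simp only [mem_filter, mem_erase, mem_insert]
      by_cases hg : g = x
      · subst hg
        simp [hx, hT]
      · simp [Function.update_of_ne hg, hg]
    rw [this, card_insert_of_notMem (by simp)]
  · rw [if_neg hT, add_zero]
    congr 1
    ext g
    simp only [mem_filter, mem_erase]
    by_cases hg : g = x
    · subst hg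
      simp [hT]
    · simp [Function.update_of_ne hg, hg]

/-- Round robin in the order of `ρ`. -/
theorem rr (u : Fin n → M → ℝ) (hn : 0 < n) (k : ℕ) :
    ∀ (S : Finset M) (ρ : Fin n → ℤ), S.card = k → Function.Injective ρ →
    ∃ A : M → Fin n, ∀ i j, i ≠ j → ∀ (T : M → Prop) [DecidablePred T], Up (u i) S T →
      cnt S A T j ≤ cnt S A T i + if ρ j < ρ i then 1 else 0 := by
  haveI : Nonempty (Fin n) := ⟨⟨0, hn⟩⟩
  induction k with
  | zero =>
    intro S ρ hS hρ
    refine ⟨fun _ => ⟨0, hn⟩, ?_⟩
    intro i j hij T _ hT
    rw [card_eq_zero] at hS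
    subst hS
    simp [cnt]
  | succ k ih =>
    intro S ρ hS hρ
    obtain ⟨r, hr⟩ := Finite.exists_min ρ
    obtain ⟨m, hm⟩ := Finite.exists_max ρ
    obtain ⟨x, hx, hmax⟩ := S.exists_max_image (u r) (card_pos.1 (by omega))
    set ρ' : Fin n → ℤ := Function.update ρ r (ρ m + 1) with hρ'
    have hinj : Function.Injective ρ' := by
      intro a b hab
      by_cases ha : a = r <;> by_cases hb : b = r
      · rw [ha, hb]
      · rw [hρ', ha, Function.update_self, Function.update_of_ne hb] at hab
        have := hm b
        omega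
      · rw [hρ', hb, Function.update_self, Function.update_of_ne ha] at hab
        have := hm a
        omega
      · rw [hρ', Function.update_of_ne ha, Function.update_of_ne hb] at hab
        exact hρ hab
    obtain ⟨A', hA'⟩ := ih (S.erase x) ρ' (by rw [card_erase_of_mem hx]; omega) hinj
    refine ⟨Function.update A' x r, ?_⟩
    intro i j hij T _ hT
    have hT' : Up (u i) (S.erase x) T := fun g hg h hh => hT g (mem_of_mem_erase hg) h
      (mem_of_mem_erase hh)
    have h1 := hA' i j hij T hT'
    by_cases hi : i = r
    · subst hi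
      rw [if_neg (not_lt.2 (hr j)), add_zero, cnt_erase_ne hij.symm, cnt_erase_eq hx]
      by_cases hTx : T x
      · rw [if_pos hTx]
        refine h1.trans ?_
        gcongr
        split_ifs <;> omega
      · have h0 : cnt (S.erase x) A' T j = 0 := by
          unfold cnt
          rw [card_eq_zero, filter_eq_empty_iff]
          rintro g hg ⟨-, hTg⟩
          exact hTx (hT g (mem_of_mem_erase hg) x hx hTg (hmax g (mem_of_mem_erase hg)))
        omega
    · by_cases hj : j = r
      · subst hj
        have hlt : ρ j < ρ i := lt_of_le_of_ne (hr i) (fun h => hij (hρ h).symm)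
        rw [if_pos hlt, cnt_erase_ne hi, cnt_erase_eq hx]
        have h2 : ¬ ρ' j < ρ' i := by
          rw [hρ', Function.update_self, Function.update_of_ne hi]
          have := hm i
          omega
        rw [if_neg h2] at h1
        split_ifs <;> omega
      · rw [cnt_erase_ne hi, cnt_erase_ne hj]
        rw [hρ', Function.update_of_ne hi, Function.update_of_ne hj] at h1
        exact h1

/-- The values of `A` are dominated by those of `B`. -/
theorem layer (v : M → ℝ) (hv : ∀ g, 0 ≤ v g) (k : ℕ) :
    ∀ A B : Finset M, A.card = k →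
      (∀ t : ℝ, (A.filter (fun g => t ≤ v g)).card ≤ (B.filter (fun g => t ≤ v g)).card) →
      value v A ≤ value v B := by
  induction k with
  | zero =>
    intro A B hA _
    rw [card_eq_zero] at hA
    subst hA
    unfold value
    simpa using sum_nonneg fun g _ => hv g
  | succ k ih =>
    intro A B hA h
    obtain ⟨a, ha, hmax⟩ := A.exists_max_image v (card_pos.1 (by omega))
    have h1 : 0 < (B.filter (fun g => v a ≤ v g)).card :=
      lt_of_lt_of_le (card_pos.2 ⟨a, mem_filter.2 ⟨ha, le_refl (v a)⟩⟩) (h (v a))
    obtain ⟨b, hb⟩ := card_pos.1 h1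
    rw [mem_filter] at hb
    have h2 := ih (A.erase a) (B.erase b) (by rw [card_erase_of_mem ha]; omega) ?_
    · unfold value at h2 ⊢
      rw [← add_sum_erase A v ha, ← add_sum_erase B v hb.1]
      exact add_le_add hb.2 h2
    · intro t
      by_cases ht : t ≤ v a
      · have e1 : (A.erase a).filter (fun g => t ≤ v g) = (A.filter (fun g => t ≤ v g)).erase a := by
          ext g; simp only [mem_filter, mem_erase]; tauto
        have e2 : (B.erase b).filter (fun g => t ≤ v g) = (B.filter (fun g => t ≤ v g)).erase b := by
          ext g; simp only [mem_filter, mem_erase]; tauto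
        rw [e1, e2, card_erase_of_mem (mem_filter.2 ⟨ha, ht⟩),
          card_erase_of_mem (mem_filter.2 ⟨hb.1, ht.trans hb.2⟩)]
        exact Nat.sub_le_sub_right (h t) 1
      · have e1 : (A.erase a).filter (fun g => t ≤ v g) = ∅ := by
          rw [filter_eq_empty_iff]
          intro g hg hg'
          exact ht (hg'.trans (hmax g (mem_of_mem_erase hg)))
        rw [e1, card_empty]
        exact Nat.zero_le _

/-- Two round robins in opposite orders. -/
theorem two (u : Fin n → M → ℝ) (hn : 0 < n) (S : Finset M) :
    ∃ A : M → Fin n, ∀ i j, ∀ (T : M → Prop) [DecidablePred T],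
      Up (u i) S T → Up (u i) Sᶜ T →
      ((bundle A j).filter T).card ≤ ((bundle A i).filter T).card + 1 := by
  obtain ⟨A₁, h₁⟩ := rr u hn _ S (fun i => ((i : ℕ) : ℤ)) rfl
    (fun a b h => Fin.ext (by simpa using h))
  obtain ⟨A₂, h₂⟩ := rr u hn _ Sᶜ (fun i => -((i : ℕ) : ℤ)) rfl
    (fun a b h => Fin.ext (by simpa using h))
  refine ⟨fun g => if g ∈ S then A₁ g else A₂ g, ?_⟩
  intro i j T _ hT₁ hT₂
  have hc : ∀ k, ((bundle (fun g => if g ∈ S then A₁ g else A₂ g) k).filter T).card =
      cnt S A₁ T k + cnt Sᶜ A₂ T k := by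
    intro k
    unfold cnt bundle
    rw [← card_union_of_disjoint]
    · congr 1
      ext g
      simp only [mem_filter, mem_univ, true_and, mem_union, mem_compl]
      by_cases hg : g ∈ S <;> simp [hg]
    · rw [disjoint_left]
      intro g hg hg'
      rw [mem_filter] at hg hg'
      exact (mem_compl.1 hg'.1) hg.1
  rw [hc, hc]
  by_cases hij : i = j
  · subst hij
    omega
  · have g₁ := h₁ i j hij T hT₁
    have g₂ := h₂ i j hij T hT₂
    have h3 : ¬ ((((j : ℕ) : ℤ) < ((i : ℕ) : ℤ)) ∧ (-((j : ℕ) : ℤ) < -((i : ℕ) : ℤ))) := by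
      omega
    split_ifs at g₁ g₂ with a b b
    · exact absurd ⟨a, b⟩ h3
    all_goals omega

end Pool.Agent.TwC
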